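import Pool.Agent.H57.AR.Defs
import Pool.Agent.H11.GR.UNI

/-!
# All arities: systems of points with copied structure
-/

set_option autoImplicit false

namespace Pool.Agent.H50.AR

open Pool.Agent.H68.BP Pool.Agent.H58.SF Pool.Agent.H53.GC Pool.Agent.H53.NR Pool.Agent.H53.GR
open Pool.Agent.H57.SO (Pal Col vt)
open Pool.Agent.H57.AR
open Function

section sys

variable {σ ρ : Sig} {V S X : Type} [LinearOrder V] {P : Pal S X} {𝔸 : Str σ V}
  {𝔹 : Str ρ V} {M : ℕ} {c : V → V → S ⊕ X}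

/-- Copies of points: the structure is copied on cliques of the relation `r` which consist of
copies of different points. -/
theorem sysR (hU : Univ 𝔹 M) {W : Type} [LinearOrder W] [Finite W] (u : W → V)
    (r : W → W → Prop) :
    ∃ e : W → V, StrictMono e ∧ ∀ (l : Fin ρ.m) (z : Fin (ρ.ar l) → W),
      𝔹 l (fun i => e (z i)) ↔ (𝔹 l (fun i => u (z i)) ∧
        ∀ i j, z i = z j ∨ (r (z i) (z j) ∧ u (z i) ≠ u (z j))) := by
  obtain ⟨e, he1, -, he2⟩ := Pool.Agent.H11.GR.pf_UNI ρ V 𝔹 M hU W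
    (fun l z => 𝔹 l (fun i => u (z i)) ∧ ∀ i j, z i = z j ∨ (r (z i) (z j) ∧ u (z i) ≠ u (z j)))
    (by
      intro m s _ hsi hirr
      have key : ∀ a b, a ≠ b → r (s a) (s b) ∧ u (s a) ≠ u (s b) := by
        intro a b hab
        obtain ⟨l, z, ⟨-, h2⟩, ⟨i, hi⟩, j, hj⟩ := hirr a b hab
        have h3 := h2 i j
        simp only [hi, hj] at h3
        rcases h3 with h3 | h3
        · exact absurd (hsi h3) hab
        · exact h3
      refine ⟨fun a => u (s a), fun a b hab => ?_, fun l z => ⟨fun h => h.1, fun h => ⟨h, ?_⟩⟩⟩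
      · by_contra hne
        exact (key a b hne).2 hab
      · intro i j
        by_cases h1 : z i = z j
        · exact Or.inl (congrArg s h1)
        · exact Or.inr (key _ _ h1))
  exact ⟨e, he1, fun l z => (he2 l z).symm⟩

omit [LinearOrder V] in
/-- Equal types of elements. -/
theorem vt_iff (hL : Lnk P 𝔹 c) {x y : V} :
    vt P c x = vt P c y ↔ ∀ l : Fin ρ.m, 𝔹 l (fun _ => x) ↔ 𝔹 l (fun _ => y) := by
  have h1 : c x x = Sum.inl (vt P c x) := by
    obtain ⟨s, hs⟩ := (hL.col.eq_iff x x).2 rfl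
    simp only [vt, hs, Sum.elim_inl, id_eq]
  have h2 : c y y = Sum.inl (vt P c y) := by
    obtain ⟨s, hs⟩ := (hL.col.eq_iff y y).2 rfl
    simp only [vt, hs, Sum.elim_inl, id_eq]
  have h3 := hL.eq x x y y
  rw [h1, h2, Sum.inl.injEq] at h3
  rw [h3]
  simp only [ite_self]
  constructor
  · rintro ⟨-, h⟩ l
    exact h l (fun _ => true)
  · intro h
    exact ⟨by simp, fun l _ => h l⟩

end sys

end Pool.Agent.H50.AR
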