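import Pool.Agent.H44.AR.BasicA
import Pool.Agent.H50.AR.SYS

/-!
# All arities, part A: systems of copies
-/

set_option autoImplicit false

namespace Pool.Agent.H50.AR

open Pool.Agent.H68.BP Pool.Agent.H58.SF Pool.Agent.H53.GC Pool.Agent.H53.NR Pool.Agent.H53.GR
open Pool.Agent.H57.AR Pool.Agent.H44.AR
open Function

theorem pf_SYN : T_SYN := by
  intro ρ V _ 𝔹 M hU W R _ _ rk u r hrk _
  let _ : LinearOrder W := LinearOrder.lift' rk hrk
  obtain ⟨e, he1, he2⟩ := sysR hU.univ u r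
  exact ⟨e, fun x y => he1.lt_iff_lt, he2⟩

end Pool.Agent.H50.AR
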