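import Pool.Agent.H50.AR.All
import Pool.Agent.H50.PT.PAR

/-!
# All arities: the theorem for first-order reducts with parameters
-/

set_option autoImplicit false

namespace Pool.Agent.H50.AR

open Pool.Agent.H68.BP Pool.Agent.H58.SF Pool.Agent.H53.GC Pool.Agent.H53.NR
open Pool.Agent.H53.GR (Univ)
open Pool.Agent.H57.EQ (T_OLG fb_mono)
open Pool.Agent.H57.AR
open Pool.Agent.H50.PT (T_FRE)

/-- The theorem at the level of freely bounded structures. -/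
theorem asm_fre (hFB2 : T_FB2) (hOLG : T_OLG) (hTYIR : T_TYIR)
    (hmain : ∀ (σ ρ : Sig) (V : Type) [LinearOrder V] (𝔸 : Str σ V) (𝔹 : Str ρ V) (M : ℕ),
      Base 𝔸 𝔹 M → Oligo 𝔸 →
      PPConstructsK3 𝔸 ∨ ∃ (σ' : Sig) (Y : Type) (_ : Finite Y) (𝕋 : Str σ' Y),
        ¬ PPConstructsK3 𝕋 ∧ N793a5b8e.ManyOneReducible (CSP 𝔸) (CSP 𝕋)) : T_FRE := by
  intro τ σ B _ _ 𝔹 𝔸 M₀ har hH hFB₀ hS
  let M := max (max M₀ 3) (τ.width + 1)
  have hFB : FreelyBounded 𝔹 M := fb_mono hFB₀ (le_trans (le_max_left _ _) (le_max_left _ _))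
  have hM : 3 ≤ M := le_trans (le_max_right M₀ 3) (le_max_left _ _)
  have hw : ∀ l, τ.ar l < M := fun l =>
    lt_of_lt_of_le (Nat.lt_succ_of_le (Finset.le_sup (f := τ.ar) (Finset.mem_univ l)))
      (le_max_right _ _)
  obtain ⟨en, hen⟩ := exists_injective_nat B
  let _ : LinearOrder B := LinearOrder.lift' en hen
  have hU : Univ 𝔹 M := by
    intro n 𝕏 hX
    obtain ⟨f, hf, hm⟩ := hFB2 τ B 𝔹 M en hen hH hFB n 𝕏 (hFB n 𝕏 hX)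
    exact ⟨f, fun i j hij => hm hij, hf⟩
  exact hmain σ τ B 𝔸 𝔹 M
    ⟨inferInstance, inferInstance, hM, fun l => ⟨har l, hw l⟩, hU, hTYIR τ σ B 𝔹 𝔸 hH hS⟩
    (hOLG τ σ B 𝔹 𝔸 inferInstance hH hS)

/-- The theorem for all first-order reducts, with parameters, of structures with free
amalgamation. -/
theorem asm_par (hFB1 : T_FB1) (hFRE : T_FRE)
    (τ σ : Sig) (B : Type) [Countable B] [Nonempty B] (𝔹 : Str τ B) (𝔸 : Str σ B)
    (har : ∀ l, 1 ≤ τ.ar l) (hH : Homogeneous 𝔹) (hF : FinitelyBounded 𝔹)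
    (hA : FreeAmalgamation 𝔹) (C : Set B) (hC : C.Finite)
    (hS : ∀ g : B ≃ B, IsAut 𝔹 g → (∀ x ∈ C, g x = x) → IsAut 𝔸 g) :
    PPConstructsK3 𝔸 ∨ ∃ (σ' : Sig) (Y : Type) (_ : Finite Y) (𝕋 : Str σ' Y),
      ¬ PPConstructsK3 𝕋 ∧ N793a5b8e.ManyOneReducible (CSP 𝔸) (CSP 𝕋) := by
  obtain ⟨M₀, hM₀, hFB₀⟩ := hFB1 τ B 𝔹 hF hA
  exact Pool.Agent.H50.PT.params hFRE τ σ B 𝔹 𝔸 M₀ har hH hFB₀ C hC hS

end Pool.Agent.H50.AR
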