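import Pool.Agent.H18.AR.BLC
import Pool.Agent.H19.AR.BLD
import Pool.Agent.H77.AR.CANR
import Pool.Agent.H60.AR.COL
import Pool.Agent.H54.AR.CR2
import Pool.Agent.H19.AR.FRB
import Pool.Agent.H70.AR.HH0
import Pool.Agent.H18.AR.LNK
import Pool.Agent.H16.AR.MAX
import Pool.Agent.H75.AR.NCT
import Pool.Agent.H19.AR.NEE
import Pool.Agent.H56.AR.ORD
import Pool.Agent.H3.AR.PRB
import Pool.Agent.H78.AR.PRM
import Pool.Agent.H77.AR.PWG
import Pool.Agent.H60.AR.PWO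
import Pool.Agent.H19.AR.RLZ
import Pool.Agent.H3.AR.SHP
import Pool.Agent.H44.AR.SPT
import Pool.Agent.H81.AR.STN
import Pool.Agent.H35.AR.SUB
import Pool.Agent.H50.AR.SYN
import Pool.Agent.H44.AR.UKM
import Pool.Agent.H68.AR.STR
import Pool.Agent.H63.AR.PRE
import Pool.Agent.H44.AR.GlueA

/-!
# All arities: the restriction to a core, assembly of the rows
-/

set_option autoImplicit false

namespace Pool.Agent.H50.AR

open Pool.Agent.H44.AR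

theorem all_PAR (hNR3 : Pool.Agent.H53.GR.T_NR3) : Pool.Agent.H57.AR.T_PAR := by
  have hSYN : T_SYN := pf_SYN
  have hPRE : T_PRE := Pool.Agent.H63.AR.pf_PRE
  have hFRB := Pool.Agent.H19.AR.pf_FRB hSYN
  have hORD := Pool.Agent.H56.AR.pf_ORD hSYN
  have hCANR := Pool.Agent.H77.AR.pf_CANR
  have hPWO := Pool.Agent.H60.AR.pf_PWO Pool.Agent.H77.AR.pf_PWG Pool.Agent.H19.AR.pf_RLZ
  have hHH0 := Pool.Agent.H70.AR.pf_HH0 hNR3 hPWO hCANR
  have hCOL := Pool.Agent.H60.AR.pf_COL hSYN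
  have hSHP := Pool.Agent.H3.AR.pf_SHP hCOL hORD
  have hNEE := Pool.Agent.H19.AR.pf_NEE hCOL hFRB
  have hUKM := Pool.Agent.H44.AR.pf_UKM Pool.Agent.H18.AR.pf_BLC hFRB
  have hPRM := Pool.Agent.H78.AR.pf_PRM hUKM hFRB
  have hSTN := Pool.Agent.H81.AR.pf_STN hUKM hPRM hFRB
  have hNCT := Pool.Agent.H75.AR.pf_NCT hSYN hUKM hFRB
  have hSTC := asm_STC Pool.Agent.H16.AR.pf_MAX hSHP hNEE hPRE
    (Pool.Agent.H19.AR.pf_BLD hSYN)
  exact glue_PAR hHH0 (Pool.Agent.H68.AR.pf_STR Pool.Agent.H35.AR.pf_SUB hPRE) hSTC hSTN hNCT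
    (Pool.Agent.H18.AR.pf_LNK hFRB) (Pool.Agent.H44.AR.pf_SPT hSYN)
    (Pool.Agent.H3.AR.pf_PRB hNR3 hCANR) Pool.Agent.H54.AR.pf_CR2

end Pool.Agent.H50.AR
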