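import Pool.Agent.H11.GR.UNI
import Pool.Agent.H18.GC.COR
import Pool.Agent.H24.GR.NRI
import Pool.Agent.H3.EQ.CYF
import Pool.Agent.H3.GR.NR2
import Pool.Agent.H1.GR.NR3
import Pool.Agent.H34.GR.CNS
import Pool.Agent.H34.GR.ITR
import Pool.Agent.H34.GR.MIX
import Pool.Agent.H36.GR.PCT
import Pool.Agent.H39.NR.LIN
import Pool.Agent.H42.GR.LIM
import Pool.Agent.H46.NR.FB2
import Pool.Agent.H50.AR.PartA
import Pool.Agent.H50.AR.PartK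
import Pool.Agent.H50.AR.Par
import Pool.Agent.H50.EQ.STR
import Pool.Agent.H52.GC.K3L
import Pool.Agent.H53.GR.GOO
import Pool.Agent.H53.GR.VAL
import Pool.Agent.H54.GR.EX
import Pool.Agent.H56.NR.RSS
import Pool.Agent.H57.SO.All
import Pool.Agent.H58.CT.Final
import Pool.Agent.H58.GR.Cyc
import Pool.Agent.H68.GC.OLF
import Pool.Agent.H77.GC.SEL
import Pool.Agent.H77.NR.FB1
import Pool.Agent.H90.GR.STP
import Pool.Agent.H95.GR.CAN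

/-!
# All arities: the theorem
-/

set_option autoImplicit false

namespace Pool.Agent.H50.AR

open Pool.Agent.H68.BP Pool.Agent.H58.SF Pool.Agent.H53.GC Pool.Agent.H53.NR
open Pool.Agent.H57.AR

theorem v_SEL : Pool.Agent.H53.GC.T_SEL := Pool.Agent.H77.GC.pf_SEL Pool.Agent.H52.GC.pf_K3L

theorem v_CYF : Pool.Agent.H57.EQ.T_CYF :=
  Pool.Agent.H3.EQ.pf_CYF Pool.Agent.H58.CT.cyclic_terms Pool.Agent.H18.GC.pf_COR

theorem v_NOSEL : Pool.Agent.H53.GR.T_NOSEL := by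
  intro 𝓔 X 𝓛 _ _ P hP hM
  exact Pool.Agent.H58.GR.no_selects Pool.Agent.H58.CT.cyclic_terms Pool.Agent.H18.GC.pf_COR hP hM

theorem v_NR3 : Pool.Agent.H53.GR.T_NR3 :=
  Pool.Agent.H1.GR.pf_NR3 (Pool.Agent.H24.GR.NRI.pf_NRI
    (Pool.Agent.H3.GR.pf_NR2 Pool.Agent.H56.NR.pf_RSS
      (Pool.Agent.H36.GR.pf_PCT (Pool.Agent.H34.GR.pf_ITR Pool.Agent.H90.GR.pf_STP))
      Pool.Agent.H39.NR.pf_LIN))

theorem v_MIX : Pool.Agent.H53.GR.T_MIX :=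
  Pool.Agent.H34.GR.pf_MIX (Pool.Agent.H53.GR.pf_VAL Pool.Agent.H11.GR.pf_UNI)
    Pool.Agent.H34.GR.pf_CNS Pool.Agent.H54.GR.pf_EX

/-- The template of a core does not pp-construct `K₃`. -/
theorem v_TPL (σ ρ : Sig) (V S X : Type) [LinearOrder V] [Finite S]
    (P : Pool.Agent.H57.SO.Pal S X) (𝔸 : Str σ V) (𝔹 : Str ρ V) (M : ℕ) (c : V → V → S ⊕ X)
    (hs : StpR P 𝔸 𝔹 M c) (h : Ty ρ (Fin 6 → V)) (h2 : (Fin 6 → V) → (Fin 6 → V) → S ⊕ X)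
    (hh : CoreR P 𝔸 𝔹 c h h2) : ¬ PPConstructsK3 (tpR P 𝔸 𝔹 M c) :=
  all_TPL v_NR3 Pool.Agent.H95.GR.pf_CAN v_MIX Pool.Agent.H53.GR.pf_GOO v_NOSEL
    (Pool.Agent.H68.GC.pf_OLF v_SEL) (Pool.Agent.H42.GR.pf_LIM Pool.Agent.H56.NR.pf_RSS)
    (Pool.Agent.H63.EQM.pf_CYC v_CYF) (Pool.Agent.H88.EQM.pf_NKC v_SEL) v_CYF
    Pool.Agent.H18.GC.pf_COR Pool.Agent.H18.GC.pf_OMG hs hh

/-- The theorem for ordered structures. -/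
theorem v_main (σ ρ : Sig) (V : Type) [LinearOrder V] (𝔸 : Str σ V) (𝔹 : Str ρ V) (M : ℕ)
    (hs : Base 𝔸 𝔹 M) (hol : Oligo 𝔸) :
    PPConstructsK3 𝔸 ∨ ∃ (σ' : Sig) (Y : Type) (_ : Finite Y) (𝕋 : Str σ' Y),
      ¬ PPConstructsK3 𝕋 ∧ N793a5b8e.ManyOneReducible (CSP 𝔸) (CSP 𝕋) :=
  asm_allR (all_PAR v_NR3) pf_REDR v_TPL hs hol

/-- The theorem for all first-order reducts, with parameters, of structures with free
amalgamation. -/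
theorem final :
    ∀ (τ σ : Sig) (B : Type) [Countable B] [Nonempty B] (𝔹 : Str τ B) (𝔸 : Str σ B),
      (∀ l, 1 ≤ τ.ar l) → Homogeneous 𝔹 → FinitelyBounded 𝔹 → FreeAmalgamation 𝔹 →
      ∀ C : Set B, C.Finite → (∀ g : B ≃ B, IsAut 𝔹 g → (∀ x ∈ C, g x = x) → IsAut 𝔸 g) →
      PPConstructsK3 𝔸 ∨ ∃ (σ' : Sig) (Y : Type) (_ : Finite Y) (𝕋 : Str σ' Y),
        ¬ PPConstructsK3 𝕋 ∧ N793a5b8e.ManyOneReducible (CSP 𝔸) (CSP 𝕋) := by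
  intro τ σ B _ _ 𝔹 𝔸 har hH hF hA C hC hS
  exact asm_par Pool.Agent.H77.NR.pf_FB1
    (asm_fre Pool.Agent.H46.NR.pf_FB2 Pool.Agent.H50.EQ.pf_OLG pf_TYIR v_main) τ σ B 𝔹 𝔸 har hH hF
    hA C hC hS

end Pool.Agent.H50.AR
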