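import Pool.Agent.H50.AR.RE1
import Pool.Agent.H3.GR.RED

/-!
# All arities: the reduction to the finite template is computable in polynomial time
-/

set_option autoImplicit false

namespace Pool.Agent.H50.AR.RED

open Pool.Agent.H1.NP Pool.Agent.H1.PNP
open Pool.Agent.H68.OQP hiding eN eE eB
open Pool.Agent.H68.NPH hiding prs eN
open Function
open Pool.Agent.H68.BP (ph cV cC eE eN eZ code code_eq CSP csp_code csp_true code_of_cV ph_vals
  strOf polyOn_numsR lgF Sig Str IsHom)
open Pool.Agent.H68.BT (Wg Cv Corr rowG rowG_length rowG_map rowG_mem rowG_getD csp_nil)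
open Pool.Agent.H53.GC (arP relP sigOf strOn)
open Pool.Agent.H53.GR (Ps)
open Pool.Agent.H74.GC (nest mem_nest)
open Pool.Agent.H3.GR.RED (sumE sumE_val entN cd cd_inj entN_eq)

variable {l env : List ℕ}

/-! ### The signature of the template -/

/-- The signature of the template. -/
@[reducible] def rT (σ : Sig) (M : ℕ) : Pool.Agent.H69.BP.Sig where
  Sym := Option (Fin σ.m)
  Ar := fun s => Ps M (arP σ M s)
  finSym := inferInstance
  finAr := fun _ => inferInstance

/-- The numbering. -/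
noncomputable def cvT (σ : Sig) (M : ℕ) :
    Cv (rT σ M) (sigOf (Option (Fin σ.m)) (fun s => Ps M (arP σ M s))) where
  e := Finite.equivFin (Option (Fin σ.m))
  a := fun s => (Finite.equivFin (Ps M (arP σ M s))).trans (finCongr (by
    change _ = Nat.card (Ps M (arP σ M ((Finite.equivFin (Option (Fin σ.m))).symm
      (Finite.equivFin (Option (Fin σ.m)) s))))
    rw [Equiv.symm_apply_apply]))

theorem strOn_corr {σ : Sig} {M : ℕ} {Y : Type}
    (R : (s : Option (Fin σ.m)) → (Ps M (arP σ M s) → Y) → Prop) :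
    Corr (cvT σ M) (fun s x => R s x) (strOn R) := by
  intro s x
  have key : ∀ (s' : Option (Fin σ.m)) (h : s' = s)
      (hc : Nat.card (Ps M (arP σ M s)) =
        Nat.card (Ps M (arP σ M s')))
      (x : Fin (Nat.card (Ps M (arP σ M s'))) → Y),
      R s' (fun p => x (Finite.equivFin (Ps M (arP σ M s')) p)) ↔
      R s (x ∘ ((Finite.equivFin (Ps M (arP σ M s))).trans
        (finCongr hc))) := by
    rintro s' rfl hc x
    exact Iff.rfl
  exact key ((Finite.equivFin (Option (Fin σ.m))).symm (Finite.equivFin (Option (Fin σ.m)) s))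
    (Equiv.symm_apply_apply _ _) _ x

/-! ### The rows -/

/-- an entry of a row, as an expression -/
def entE (M : ℕ) {m : ℕ} (Y : Fin m → Ex) (p : Ps M m) : Ex :=
  .add (.con p.1) (.mul (.con M)
    (sumE (List.ofFn (fun i : Fin (p.1 + 1) => Ex.mul (Y (p.2 i)) (Pool.Agent.H3.GR.RED.powE eN i)))))

theorem ent_val {m n M : ℕ} (hn : ∀ env, (eN).val l env = n) {Y : Fin m → Ex} {y : Fin m → ℕ}
    (hv : ∀ a, (Y a).val l env = y a) (p : Ps M m) :
    (entE M Y p).val l env = entN n M y p := by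
  unfold entE entN
  simp only [Ex.val, sumE_val, List.map_ofFn, List.sum_ofFn, Function.comp_apply, Pool.Agent.H3.GR.RED.powE_val, hn, hv]

/-! ### The program -/

section prog

variable {σ : Sig} {M : ℕ}

/-- the rows -/
noncomputable def pA (σ : Sig) (M : ℕ) : Wg :=
  .seq (nest eN M (.row (rowG (cvT σ M) Ex.con (none : Option (Fin σ.m))
      (entE M (fun a : Fin M => Ex.var a)))))
    (.loop eZ (Wg.many (List.finRange σ.m) (fun l => .cond (cC σ l)
      (.row (rowG (cvT σ M) Ex.con (some l : Option (Fin σ.m))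
        (entE M (fun a : Fin (σ.ar l) => eE σ (a + 1))))))))

/-- the whole program -/
noncomputable def pT (σ : Sig) (M : ℕ) : Lg :=
  cV.ite (.seq (.el (.mul (.con M) (Pool.Agent.H3.GR.RED.powE eN M))) (pA σ M).toLg) .nil

/-- the output -/
noncomputable def red (σ : Sig) (M : ℕ) (x : List Bool) : List ℕ :=
  (pT σ M).out (ph (σ.width + 1) x) []

theorem polyOn_red : PolyOn (fun w : List Bool => w) unary (red σ M) :=
  ((polyOn_numsR.comp (polyOn_lg (lgF (σ.width + 1)))).comp (polyOn_lg (pT σ M))).congr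
    (fun q => q) (fun _ => rfl) (fun _ => rfl)

theorem red_bad {x : List Bool} (h : ¬ cV.tv (ph (σ.width + 1) x) []) : red σ M x = [] := by
  unfold red pT
  rw [Cd.ite_out, if_neg h]
  rfl

/-- the row of a tuple -/
noncomputable def rw' (σ : Sig) (M n : ℕ) (s : Option (Fin σ.m))
    (y : Fin (arP σ M s) → Fin n) : List ℕ :=
  rowG (cvT σ M) id s (entN n M (fun a => (y a : ℕ)))

variable {n : ℕ} {L : List (List ℕ)} (hL : ∀ c ∈ L, c.length = σ.width + 1)

include hL

theorem mem_pA {A : List ℕ} (hA : ph (σ.width + 1) (code n L) = A) (c : List ℕ) :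
    c ∈ (pA σ M).out A [] ↔ ∃ (s : Option (Fin σ.m)) (y : Fin (arP σ M s) → Fin n),
      relP (strOf σ n L) M s y ∧ c = rw' σ M n s y := by
  obtain ⟨M', hM, h0, h1, h2, h3, h4⟩ := ph_vals (n := n) hL
  rw [hA] at hM
  subst hM
  have hw : ∀ (l : Fin σ.m) (p : Fin (σ.ar l)), (p : ℕ) + 1 < σ.width + 1 := by
    intro l p
    have : σ.ar l ≤ σ.width := Finset.le_sup (f := σ.ar) (Finset.mem_univ l)
    have := p.2
    omega
  have hn : ∀ env, (eN).val A env = n := fun env => h2
  unfold pA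
  rw [Wg.mem_seq, mem_nest hn, Wg.mem_loop]
  constructor
  · rintro (⟨ys, e1, e2, h⟩ | ⟨j, hj, h⟩)
    · rw [Wg.mem_row, rowG_map] at h
      have hv : ∀ a : Fin M, (Ex.var a).val A (ys ++ []) = ys.getD a 0 := fun a => by
        simp only [Ex.val, List.append_nil]
      refine ⟨none, fun a => ⟨ys.getD a 0, ?_⟩, trivial, ?_⟩
      · have ha : (a : ℕ) < ys.length := by
          rw [e1]
          exact a.2
        rw [List.getD_eq_getElem?_getD, List.getElem?_eq_getElem ha]
        exact e2 _ (List.getElem_mem ha)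
      · rw [h]
        unfold rw'
        congr 1
        funext p
        exact ent_val hn hv p
    · rw [Wg.mem_many] at h
      obtain ⟨l, -, h⟩ := h
      rw [Wg.mem_cond, Wg.mem_row, rowG_map] at h
      obtain ⟨hc, h⟩ := h
      simp only [cC, tv_and, tv_le, tv_eq, tv_all, tv_lt, eE, eZ, eN, Ex.val,
        List.getD_cons_zero, h1, h2] at hc
      obtain ⟨⟨c1, c2⟩, c3⟩ := hc
      have hj' : j < L.length := by
        have : (j + 1) * (σ.width + 1) ≤ L.length * (σ.width + 1) := by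
          rw [Nat.mul_comm (j + 1)]
          omega
        exact Nat.lt_of_succ_le (Nat.le_of_mul_le_mul_right this (by omega))
      rw [h4 j hj' 0 (by omega)] at c2
      have hv : ∀ p : Fin (σ.ar l), (eE σ (p + 1)).val A [j] = (L[j]).getD (p + 1) 0 := by
        intro p
        simp only [eE, Ex.val, List.getD_cons_zero]
        exact h4 j hj' _ (hw l p)
      have c4 : ∀ p : Fin (σ.ar l), (L[j]).getD (p + 1) 0 < n := by
        intro p
        have := c3 p (List.mem_finRange p)
        rwa [h4 j hj' _ (hw l p)] at this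
      refine ⟨some l, fun a => ⟨_, c4 a⟩, ⟨L[j], List.getElem_mem hj', c2, fun i => rfl⟩, ?_⟩
      rw [h]
      unfold rw'
      congr 1
      funext p
      exact ent_val hn hv p
  · rintro ⟨s, y, hr, rfl⟩
    cases s with
    | none =>
      left
      refine ⟨List.ofFn (fun a : Fin M => ((y a : Fin n) : ℕ)), by simp, ?_, ?_⟩
      · intro v hv
        rw [List.mem_ofFn] at hv
        obtain ⟨a, rfl⟩ := hv
        exact (y a).2
      · rw [Wg.mem_row, rowG_map]
        have hv : ∀ a : Fin M, (Ex.var a).val A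
            (List.ofFn (fun a : Fin M => ((y a : Fin n) : ℕ)) ++ []) = y a := fun a => by
          simp only [Ex.val, List.append_nil]
          rw [List.getD_eq_getElem?_getD, List.getElem?_ofFn, dif_pos a.2]
          rfl
        unfold rw'
        congr 1
        funext p
        exact (ent_val hn hv p).symm
    | some l =>
      right
      obtain ⟨c', hc', c1, c2⟩ := hr
      obtain ⟨j, hj, rfl⟩ := List.getElem_of_mem hc'
      refine ⟨j, ?_, ?_⟩
      · simp only [eZ, Ex.val, h1]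
        have : L.length ≤ L.length * (σ.width + 1) := Nat.le_mul_of_pos_right _ (by omega)
        omega
      · have hv : ∀ p : Fin (σ.ar l), (eE σ (p + 1)).val A [j] = y p := by
          intro p
          simp only [eE, Ex.val, List.getD_cons_zero]
          rw [h4 j hj _ (hw l p), c2 p]
        rw [Wg.mem_many]
        refine ⟨l, List.mem_finRange l, ?_⟩
        rw [Wg.mem_cond, Wg.mem_row, rowG_map]
        refine ⟨?_, ?_⟩
        · simp only [cC, tv_and, tv_le, tv_eq, tv_all, tv_lt, eE, eZ, eN, Ex.val,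
            List.getD_cons_zero, h1, h2]
          refine ⟨⟨?_, ?_⟩, ?_⟩
          · have : (j + 1) * (σ.width + 1) ≤ L.length * (σ.width + 1) :=
              Nat.mul_le_mul_right _ hj
            rw [Nat.mul_comm (j + 1)] at this
            omega
          · rw [h4 j hj 0 (by omega)]
            exact c1
          · intro p _
            rw [h4 j hj _ (hw l p), c2 p]
            exact (y p).2
        · unfold rw'
          congr 1
          funext p
          exact (ent_val hn hv p).symm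

theorem red_code : ∃ L' : List (List ℕ), (∀ c ∈ L', c.length =
      (sigOf (Option (Fin σ.m)) (fun s => Ps M (arP σ M s))).width + 1) ∧
    unary (red σ M (code n L)) = code (M * n ^ M) L' ∧
    ∀ c, c ∈ L' ↔ ∃ (s : Option (Fin σ.m)) (y : Fin (arP σ M s) → Fin n),
      relP (strOf σ n L) M s y ∧ c = rw' σ M n s y := by
  obtain ⟨A, hM, h0, h1, h2, h3, h4⟩ := ph_vals (n := n) hL
  have hV : cV.tv A [] := by
    simp only [cV, tv_and, tv_le, tv_eq, Ex.val, h0, h3]
    exact ⟨le_rfl, trivial⟩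
  refine ⟨(pA σ M).out A [], ?_, ?_, mem_pA hL hM⟩
  · intro c hc
    obtain ⟨s, y, -, rfl⟩ := (mem_pA hL hM c).1 hc
    exact rowG_length _ _ _ _
  · unfold red pT
    rw [hM, Cd.ite_out, if_pos hV, code_eq]
    simp only [Lg.out, Wg.toLg_out, Pool.Agent.H3.GR.RED.powE_val, eN, Ex.val, h2, List.singleton_append]

omit hL

theorem strOf_rows {L' : List (List ℕ)} (hL' : ∀ c, c ∈ L' ↔ ∃ (s : Option (Fin σ.m))
      (y : Fin (arP σ M s) → Fin n), relP (strOf σ n L) M s y ∧ c = rw' σ M n s y)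
      (s : Option (Fin σ.m)) (x : (rT σ M).Ar s → Fin (M * n ^ M)) :
    strOf (sigOf (Option (Fin σ.m)) (fun s => Ps M (arP σ M s)))
        (M * n ^ M) L' ((cvT σ M).e s) (x ∘ ((cvT σ M).a s).symm) ↔
      ∃ y : Fin (arP σ M s) → Fin n, relP (strOf σ n L) M s y ∧
        ∀ p, entN n M (fun a => (y a : ℕ)) p = (x p : ℕ) := by
  have h1 : strOf (sigOf (Option (Fin σ.m)) (fun s => Ps M (arP σ M s)))
        (M * n ^ M) L' ((cvT σ M).e s) (x ∘ ((cvT σ M).a s).symm) ↔
      ∃ c ∈ L', c.getD 0 0 = ((cvT σ M).e s : ℕ) ∧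
        ∀ i : Fin ((sigOf (Option (Fin σ.m)) (fun s => Ps M (arP σ M s))).ar
          ((cvT σ M).e s)), c.getD (i + 1) 0 = ((x ∘ ((cvT σ M).a s).symm) i : ℕ) := Iff.rfl
  rw [h1]
  constructor
  · rintro ⟨c, hc, h2⟩
    obtain ⟨s', y, hr, rfl⟩ := (hL' c).1 hc
    have h2' : (rowG (cvT σ M) id s' (entN n M (fun a => (y a : ℕ)))).getD 0 0 =
          ((cvT σ M).e s : ℕ) ∧
        ∀ i : Fin ((sigOf (Option (Fin σ.m)) (fun s => Ps M (arP σ M s))).ar
          ((cvT σ M).e s)), (rowG (cvT σ M) id s'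
            (entN n M (fun a => (y a : ℕ)))).getD (i + 1) 0 =
          (fun i => ((x ∘ ((cvT σ M).a s).symm) i : ℕ)) i := h2
    obtain ⟨h3, h4⟩ := (rowG_mem (cvT σ M) (s := s') (s' := s)).1 h2'
    subst h3
    refine ⟨y, hr, fun p => ?_⟩
    have h5 := h4 p
    simp only [comp_apply, Equiv.symm_apply_apply] at h5
    exact h5
  · rintro ⟨y, hr, h2⟩
    refine ⟨rw' σ M n s y, (hL' _).2 ⟨s, y, hr, rfl⟩, ?_⟩
    have h3 := (rowG_mem (cvT σ M) (s := s) (s' := s)
      (F := entN n M (fun a => (y a : ℕ)))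
      (x := fun i => ((x ∘ ((cvT σ M).a s).symm) i : ℕ))).2 ⟨rfl, fun p => ?_⟩
    · exact h3
    · simp only [comp_apply, Equiv.symm_apply_apply]
      exact h2 p

end prog

theorem hom_iff {σ : Sig} {M n : ℕ} {Y : Type} [Nonempty Y]
    (R : (s : Option (Fin σ.m)) → (Ps M (arP σ M s) → Y) → Prop)
    {Ls L' : List (List ℕ)} (hL' : ∀ c, c ∈ L' ↔ ∃ (s : Option (Fin σ.m))
      (y : Fin (arP σ M s) → Fin n), relP (strOf σ n Ls) M s y ∧ c = rw' σ M n s y) :
    (∃ q : (Σ j : Fin M, (Fin (j + 1) → Fin n)) → Y,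
      ∀ (s : Option (Fin σ.m)) (y : Fin (arP σ M s) → Fin n), relP (strOf σ n Ls) M s y →
        R s (fun p => q ⟨p.1, fun i => y (p.2 i)⟩)) ↔
    ∃ f : Fin (M * n ^ M) → Y,
      IsHom (strOf (sigOf (Option (Fin σ.m)) (fun s => Ps M (arP σ M s)))
        (M * n ^ M) L') (strOn R) f := by
  have hT : Corr (cvT σ M) (fun s (q : (rT σ M).Ar s → Y) => R s q) (strOn R) := strOn_corr _
  obtain ⟨y₀⟩ := (inferInstance : Nonempty Y)
  constructor
  · rintro ⟨q, hq⟩
    refine ⟨Function.extend cd q (fun _ => y₀), ?_⟩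
    intro l x hx
    obtain ⟨s, rfl⟩ := (cvT σ M).e.surjective l
    have e1 : x = (x ∘ (cvT σ M).a s) ∘ ((cvT σ M).a s).symm := by
      funext i
      simp
    rw [e1] at hx
    obtain ⟨y, hr, he⟩ := (strOf_rows hL' s _).1 hx
    refine (hT s _).2 ?_
    have e3 : ((fun z => Function.extend cd q (fun _ => y₀) z) ∘ x) ∘
        (cvT σ M).a s = fun p => q ⟨p.1, fun i => y (p.2 i)⟩ := by
      funext p
      have e2 : x ((cvT σ M).a s p) = cd ⟨p.1, fun i => y (p.2 i)⟩ := by
        apply Fin.ext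
        rw [← entN_eq y p]
        exact (he p).symm
      simp only [comp_apply]
      rw [e2, cd_inj.extend_apply]
    have e4 := hq s y hr
    rw [← e3] at e4
    exact e4
  · rintro ⟨f, hf⟩
    refine ⟨fun p => f (cd p), ?_⟩
    intro s y hr
    have h1 := (strOf_rows hL' s (fun p => cd ⟨p.1, fun i => y (p.2 i)⟩)).2
      ⟨y, hr, fun p => entN_eq y p⟩
    have h2 := (hT s _).1 (hf _ _ h1)
    have e3 : ((fun z => f z) ∘ ((fun p : Ps M (arP σ M s) => cd ⟨p.1, fun i => y (p.2 i)⟩) ∘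
        ((cvT σ M).a s).symm)) ∘ (cvT σ M).a s =
          fun p => f (cd ⟨p.1, fun i => y (p.2 i)⟩) := by
      funext p
      exact congrArg (fun p' : Ps M (arP σ M s) => f (cd ⟨p'.1, fun i => y (p'.2 i)⟩))
        (Equiv.symm_apply_apply ((cvT σ M).a s) p)
    exact e3 ▸ h2

/-- the reduction for a template given by a relation -/
theorem red_gen {σ : Sig} {V Y : Type} [Nonempty Y] {𝔸 : Str σ V} {M : ℕ}
    (R : (s : Option (Fin σ.m)) → (Ps M (arP σ M s) → Y) → Prop)
    (hre : ∀ (n : ℕ) (𝕏 : Str σ (Fin n)), (∃ f, IsHom 𝕏 𝔸 f) ↔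
      ∃ q : (Σ j : Fin M, (Fin (j + 1) → Fin n)) → Y,
        ∀ (s : Option (Fin σ.m)) (y : Fin (arP σ M s) → Fin n), relP 𝕏 M s y →
          R s (fun p => q ⟨p.1, fun i => y (p.2 i)⟩)) :
    N793a5b8e.ManyOneReducible (CSP 𝔸) (CSP (strOn R)) := by
  refine manyOne (polyOn_red (σ := σ) (M := M))
    (Q := fun l => CSP (strOn R) (unary l) = true) (fun p => Iff.rfl) (fun x => ?_)
  by_cases h : cV.tv (ph (σ.width + 1) x) []
  · obtain ⟨n, Ls, e1, rfl⟩ := code_of_cV h
    obtain ⟨L', e2, e3, e4⟩ := red_code (M := M) (n := n) e1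
    rw [csp_code 𝔸 e1, e3, csp_code (strOn R) e2, hre n (strOf σ n Ls)]
    exact hom_iff R e4
  · constructor
    · intro hx
      obtain ⟨n, Ls, h1, rfl⟩ := csp_true 𝔸 hx
      obtain ⟨M', hM, h0, -, -, h3, -⟩ := ph_vals (n := n) h1
      refine absurd ?_ h
      rw [hM]
      simp only [cV, tv_and, tv_le, tv_eq, Ex.val, h0, h3]
      exact ⟨le_rfl, trivial⟩
    · intro hx
      rw [red_bad h] at hx
      exact absurd hx (csp_nil _)

end Pool.Agent.H50.AR.RED

namespace Pool.Agent.H50.AR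

open Pool.Agent.H68.BP Pool.Agent.H58.SF Pool.Agent.H53.GC Pool.Agent.H53.NR Pool.Agent.H53.GR
open Pool.Agent.H57.SO (Pal Col vt)
open Pool.Agent.H57.AR

/-- the reduction -/
theorem red {σ ρ : Sig} {V S X : Type} [LinearOrder V] [Finite S] {P : Pal S X} {𝔸 : Str σ V}
    {𝔹 : Str ρ V} {M : ℕ} {c : V → V → S ⊕ X} (hs : StpR P 𝔸 𝔹 M c)
    (har : ∀ l, 1 ≤ ρ.ar l ∧ ρ.ar l < M) :
    N793a5b8e.ManyOneReducible (CSP 𝔸) (CSP (tpR P 𝔸 𝔹 M c)) := by
  have h3 := hs.base.three
  obtain ⟨v⟩ := hs.base.ne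
  have : Nonempty (El S ρ M) := ⟨⟨⟨0, by omega⟩, ⟨fun _ => vt P c v, fun _ _ => True,
    fun _ _ _ => True, fun φ => φ fun _ _ => True⟩⟩⟩
  exact RED.red_gen _ (re1 hs har)

end Pool.Agent.H50.AR
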