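import Pool.Agent.H50.AR.SYS
import Pool.Agent.H50.SO.SRT

/-!
# All arities: cyclic actions on the types
-/

set_option autoImplicit false

namespace Pool.Agent.H50.AR

open Pool.Agent.H68.BP Pool.Agent.H58.SF Pool.Agent.H53.GC Pool.Agent.H53.NR Pool.Agent.H53.GR
open Pool.Agent.H57.SO (Pal Col vt Exa Sb FBl Sbn)
open Pool.Agent.H57.EQ (Cx T_CYF)
open Pool.Agent.H57.AR
open Pool.Agent.H50.SO (sbn_proj sbn_comp separate Fac RS fam_of fam_eq ky vt_eq pat_ne inj01 inj10)
open Function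

section fac

variable {V S X : Type} {σ : Sig} {P : Pal S X} {𝔸 : Str σ V} {c : V → V → S ⊕ X} {p : ℕ}

theorem exists_fac (hCOR : T_COR) (hOMG : T_OMG) (hfS : Finite S) (hcol : Col P c)
    (hperm : ∀ γ : S → S, Sb 𝔸 c γ → Bijective γ) [NeZero p]
    (hZ : ∃ Z, Selects (RS P 𝔸 c p) Z) : ∃ U, Fac P 𝔸 c U := by
  have : Finite (ZMod p) := Finite.of_fintype _
  obtain ⟨ρ, hρ⟩ := hCOR _ _ _ (RS P 𝔸 c p)
  obtain ⟨ξ, hξ1, hξ2⟩ := hOMG _ _ _ (RS P 𝔸 c p) ρ hρ hZ
  -- the retraction is the identity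
  have hρid : ∀ e x, ρ e x = x := by
    intro e x
    have h1 : ∀ e', ρ e' = ρ e := by
      intro e'
      funext y
      exact hρ.fam (Sum.inr (e', e)) (fun _ => y) rfl
    have h2 : Sbn P 𝔸 c (fun t : ZMod p → S => ρ e (t 0)) := by
      have h3 := hρ.fam (Sum.inl ()) (fun t => t 0) (sbn_proj 0)
      have h4 : (fun e' : ZMod p → S => ρ e' (e' 0)) = fun t => ρ e (t 0) := by
        funext e'
        rw [h1 e']
      change Sbn P 𝔸 c (fun e' : ZMod p → S => ρ e' (e' 0)) at h3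
      rw [h4] at h3
      exact h3
    have h3 : Sb 𝔸 c (ρ e) := by
      intro W _ G
      obtain ⟨ψ, h4, h5⟩ := h2 W (fun _ => G)
      refine ⟨ψ, fun l z hz => h4 l z fun _ => hz (), fun w s hw => ?_⟩
      have h6 := h5 w
      obtain ⟨s', hs'⟩ := (hcol.eq_iff (ψ w) (ψ w)).2 rfl
      rw [hs']
      simp only [vt, hs', hw, Sum.elim_inl, id_eq] at h6
      rw [h6]
    exact (hperm _ h3).1 (hρ.idem e x)
  have hifam : ∀ {I : Type} {τ : (I → S) → S}, Fam (RS P 𝔸 c p) I (fun _ => τ) →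
      (∀ s, τ (fun _ => s) = s) → IFam (RS P 𝔸 c p) ρ I (fun _ => τ) := by
    intro I τ h1 h2
    refine ⟨h1, fun e w => hρid e _, fun e w => ?_, fun e t => ?_⟩
    · exact congrArg τ (funext fun i => hρid e _)
    · rw [hρid]
      exact h2 t
  let B : Set ((Fin 2 → S) → S) := {f | IFam (RS P 𝔸 c p) ρ (Fin 2) (fun _ => f)}
  have hpr : ∀ b : Fin 2, (fun w : Fin 2 → S => w b) ∈ B := fun b =>
    hifam (fam_of (sbn_proj b)) fun _ => rfl
  have hξpr : ∀ b : Fin 2, ξ (fun _ => fun w : Fin 2 → S => w b) = b := by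
    intro b
    have h1 := hξ1 b
    simp only [hρid] at h1
    exact h1
  obtain ⟨J, a, z, h1, h2⟩ := separate B (fun f => ξ (fun _ => f)) (hpr 0) (hpr 1) (hξpr 0)
    (hξpr 1)
  refine ⟨fun b => {s | ∃ f ∈ B, (∀ x ∈ J, f x = a x) ∧ ξ (fun _ => f) = b ∧ f z = s}, ?_, ?_, ?_⟩
  · rintro b b' s ⟨f, hf1, hf2, hf3, hf4⟩ ⟨g, hg1, hg2, hg3, hg4⟩
    rw [← hf3, ← hg3]
    exact h2 f g hf1 hg1 hf2 hg2 (hf4.trans hg4.symm)
  · intro b
    obtain ⟨f, hf1, hf2, hf3⟩ := h1 b
    exact ⟨f z, f, hf1, hf2, hf3, rfl⟩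
  · intro n τ hτ hid
    obtain ⟨i, hi⟩ := hξ2 n (fun _ => τ) (hifam (fam_of hτ) hid)
    refine ⟨i, fun u b hu => ?_⟩
    choose f hf1 hf2 hf3 hf4 using hu
    refine ⟨fun w => τ (fun j => f j w), ?_, fun x hx => ?_, ?_, ?_⟩
    · refine hifam (fun l q hq => ?_) fun s => ?_
      · exact fam_of hτ l (fun j e => f j (fun i => q i e)) fun j => (hf1 j).fam l q hq
      · have h3 : ∀ j, f j (fun _ => s) = s := by
          intro j
          have h4 := (hf1 j).idem (fun _ => s) s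
          rw [hρid] at h4
          exact h4
        simp only [h3]
        exact hid s
    · have h3 : (fun j => f j x) = fun _ => a x := funext fun j => hf2 j x hx
      change τ (fun j => f j x) = a x
      rw [h3]
      exact hid _
    · have h3 := hi (fun j _ => f j) hf1
      exact h3.trans (hf3 i)
    · exact congrArg τ (funext hf4)

end fac

/-! ### Blocks with given shapes -/

section shapes

variable {V S X : Type} {σ ρ : Sig} [LinearOrder V] {P : Pal S X} {𝔸 : Str σ V} {𝔹 : Str ρ V}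
  {M : ℕ} {c : V → V → S ⊕ X}

/-- `z` is a block with entries of types `s` at the positions `k`, and each tuple in a relation is
constant. -/
structure Sh (P : Pal S X) (𝔹 : Str ρ V) (c : V → V → S ⊕ X) (k : Fin 6 → ℕ) (s : Fin 6 → S)
    (z : Fin 6 → V) : Prop where
  ord : ∀ l l', z l < z l' ↔ k l < k l'
  typ : ∀ l, vt P c (z l) = s l
  rel : ∀ (l : Fin ρ.m) (w : Fin (ρ.ar l) → Fin 6), 𝔹 l (fun i => z (w i)) →
    ∀ i j, z (w i) = z (w j)

theorem sh_eq {k : Fin 6 → ℕ} {s : Fin 6 → S} {z : Fin 6 → V} (h : Sh P 𝔹 c k s z) (l l' : Fin 6) :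
    z l = z l' ↔ k l = k l' := by
  have h1 := h.ord l l'
  have h2 := h.ord l' l
  constructor
  · intro he
    rw [he] at h1 h2
    simp only [lt_irrefl, false_iff, not_lt] at h1 h2
    omega
  · intro he
    rw [he] at h1 h2
    simp only [lt_irrefl, iff_false, not_lt] at h1 h2
    exact le_antisymm h2 h1

theorem sh_same (hL : Lnk P 𝔹 c) (har : ∀ l, 1 ≤ ρ.ar l) {k k' : Fin 6 → ℕ} {s : Fin 6 → S}
    {z z' : Fin 6 → V} (hk : ∀ l l', k l < k l' ↔ k' l < k' l') (h : Sh P 𝔹 c k s z)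
    (h' : Sh P 𝔹 c k' s z') : SameTp 𝔹 (Sum.elim z z) (Sum.elim z' z') := by
  have he : ∀ l l', z l = z l' ↔ z' l = z' l' := by
    intro l l'
    rw [sh_eq h, sh_eq h']
    have := hk l l'
    have := hk l' l
    omega
  have hone : ∀ {k k' : Fin 6 → ℕ} {z z' : Fin 6 → V}, Sh P 𝔹 c k s z → Sh P 𝔹 c k' s z' →
      (∀ l l', z l = z l' ↔ z' l = z' l') → ∀ (l : Fin ρ.m) (w : Fin (ρ.ar l) → Fin 6),
      𝔹 l (fun i => z (w i)) → 𝔹 l (fun i => z' (w i)) := by
    intro k k' z z' h h' he l w hB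
    have h1 := h.rel l w hB
    have e1 : (fun i => z (w i)) = fun _ => z (w ⟨0, har l⟩) := funext fun i => h1 _ _
    have e2 : (fun i => z' (w i)) = fun _ => z' (w ⟨0, har l⟩) :=
      funext fun i => (he _ _).1 (h1 _ _)
    rw [e1] at hB
    rw [e2]
    exact ((vt_iff hL).1 ((h.typ _).trans (h'.typ _).symm) l).1 hB
  refine ⟨?_, ?_⟩
  · have h1 : ∀ l l', z l < z l' ↔ z' l < z' l' := fun l l' => by rw [h.ord, h'.ord, hk]
    rintro (l | l) (l' | l') <;> exact h1 l l'
  · funext l w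
    refine propext ?_
    let w' : Fin (ρ.ar l) → Fin 6 := fun i => Sum.elim id id (w i)
    have e1 : (fun i => Sum.elim z z (w i)) = fun i => z (w' i) := by
      funext i
      rcases hi : w i with a | a <;> simp [w', hi]
    have e2 : (fun i => Sum.elim z' z' (w i)) = fun i => z' (w' i) := by
      funext i
      rcases hi : w i with a | a <;> simp [w', hi]
    change 𝔹 l (fun i => Sum.elim z z (w i)) ↔ 𝔹 l (fun i => Sum.elim z' z' (w i))
    rw [e1, e2]
    exact ⟨hone h h' he l w', hone h' h (fun a b => (he a b).symm) l w'⟩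

/-- systems of blocks -/
theorem sys6 (hU : Univ 𝔹 M) (hL : Lnk P 𝔹 c) {m : ℕ} (π : Fin 6 → Fin m)
    (Q : Fin m → S → Prop) {W : Type} [Finite W] (G : Fin m → W → V) : ∃ e : Fin 6 → W → V,
      (∀ l, tp 𝔹 (e l) = tp 𝔹 (G (π l))) ∧
      ∀ w, Sh P 𝔹 c (ky π Q (fun j => vt P c (G j w))) (fun l => vt P c (G (π l) w))
        (fun l => e l w) := by
  classical
  let V' := Set.range (fun p : Fin m × W => G p.1 p.2)
  have hfin : Finite V' := inferInstance
  let N := Fin (m + 6) ×ₗ V'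
  have hN : Finite N := inferInstanceAs (Finite (Fin (m + 6) × V'))
  let πk : Fin (m + 6) → Fin m := fun k => if h : (k : ℕ) < m then ⟨k, h⟩ else
    π ⟨k - m, by omega⟩
  let u : N → V := fun n => ((ofLex n).2 : V)
  let r : N → N → Prop := fun n n' => πk (ofLex n).1 = πk (ofLex n').1 ∧
    ((ofLex n).1 = (ofLex n').1 ∨ Q (πk (ofLex n).1) (vt P c (u n)) ∨
      Q (πk (ofLex n').1) (vt P c (u n')))
  obtain ⟨E, hE1, hE2⟩ := sysR hU u r
  have hEt : ∀ n, vt P c (E n) = vt P c (u n) := by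
    intro n
    rw [vt_iff hL]
    intro l
    have h1 := hE2 l (fun _ => n)
    rw [h1]
    exact ⟨fun h => h.1, fun h => ⟨h, fun _ _ => Or.inl rfl⟩⟩
  let kk : Fin 6 → S → Fin (m + 6) := fun l s =>
    if Q (π l) s then ⟨(π l : ℕ), by omega⟩ else ⟨m + l, by omega⟩
  have hkk : ∀ l s, πk (kk l s) = π l := by
    intro l s
    simp only [kk]
    split_ifs with h
    · simp only [πk]
      rw [dif_pos (π l).2]
    · simp only [πk]
      rw [dif_neg (by omega)]
      exact congrArg π (Fin.ext (by simp))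
  have hky : ∀ (t : Fin m → S) l, ((kk l (t (π l)) : Fin (m + 6)) : ℕ) = ky π Q t l := by
    intro t l
    simp only [kk, ky]
    split_ifs <;> rfl
  let pt : Fin 6 → W → N := fun l w => toLex (kk l (vt P c (G (π l) w)), ⟨G (π l) w, (π l, w), rfl⟩)
  have hu : ∀ l w, u (pt l w) = G (π l) w := fun l w => rfl
  have hpe : ∀ l w w', G (π l) w = G (π l) w' → pt l w = pt l w' := by
    intro l w w' hv
    exact congrArg toLex (Prod.ext (congrArg (fun v => kk l (vt P c v)) hv) (Subtype.ext hv))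
  have hrel : ∀ l w w', r (pt l w) (pt l w') := by
    intro l w w'
    refine ⟨?_, ?_⟩
    · change πk (kk l _) = πk (kk l _)
      rw [hkk, hkk]
    · change kk l (vt P c (G (π l) w)) = kk l (vt P c (G (π l) w')) ∨
          Q (πk (kk l (vt P c (G (π l) w)))) (vt P c (G (π l) w)) ∨
          Q (πk (kk l (vt P c (G (π l) w')))) (vt P c (G (π l) w'))
      rw [hkk, hkk]
      by_cases h1 : Q (π l) (vt P c (G (π l) w))
      · exact Or.inr (Or.inl h1)
      by_cases h2 : Q (π l) (vt P c (G (π l) w'))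
      · exact Or.inr (Or.inr h2)
      left
      simp only [kk, if_neg h1, if_neg h2]
  refine ⟨fun l w => E (pt l w), fun l => Prod.ext ?_ ?_, fun w => ⟨fun l l' => ?_, fun l => ?_,
    fun l z hz i j => ?_⟩⟩
  · funext w w'
    refine propext ?_
    change E (pt l w) = E (pt l w') ↔ G (π l) w = G (π l) w'
    rw [hE1.injective.eq_iff]
    refine ⟨fun h => ?_, hpe l w w'⟩
    exact congrArg u h
  · funext l' z
    refine propext ?_
    change 𝔹 l' (fun i => E (pt l (z i))) ↔ 𝔹 l' (fun i => G (π l) (z i))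
    rw [hE2 l' (fun i => pt l (z i))]
    refine ⟨fun h => h.1, fun h => ⟨h, fun i j => ?_⟩⟩
    by_cases hv : G (π l) (z i) = G (π l) (z j)
    · exact Or.inl (hpe l _ _ hv)
    · exact Or.inr ⟨hrel l _ _, hv⟩
  · have h0 : ∀ l l', kk l (vt P c (G (π l) w)) = kk l' (vt P c (G (π l') w)) → π l = π l' := by
      intro l l' h
      rw [← hkk l (vt P c (G (π l) w)), ← hkk l' (vt P c (G (π l') w)), h]
    rw [hE1.lt_iff_lt, ← hky (fun j => vt P c (G j w)), ← hky (fun j => vt P c (G j w)),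
      ← Fin.lt_def]
    change toLex (_, _) < toLex (_, _) ↔ _
    rw [Prod.Lex.toLex_lt_toLex]
    constructor
    · rintro (h | ⟨h1, h2⟩)
      · exact h
      · have h3 := h0 _ _ h1
        rw [← Subtype.coe_lt_coe] at h2
        simp only at h2
        rw [h3] at h2
        exact absurd h2 (lt_irrefl _)
    · intro h
      exact Or.inl h
  · exact (hEt _).trans (congrArg (vt P c) (hu l w))
  · have h1 := ((hE2 l (fun i => pt (z i) w)).1 hz).2 i j
    rcases h1 with h1 | ⟨⟨h1, -⟩, h2⟩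
    · exact congrArg E h1
    · exfalso
      apply h2
      change πk (kk (z i) _) = πk (kk (z j) _) at h1
      rw [hkk, hkk] at h1
      change G (π (z i)) w = G (π (z j)) w
      rw [h1]

end shapes

section ops

variable {V S X : Type} {σ ρ : Sig} [LinearOrder V] {P : Pal S X} {𝔸 : Str σ V} {𝔹 : Str ρ V}
  {M : ℕ} {c : V → V → S ⊕ X} {h : (Fin 6 → V) → (Fin 6 → V) → S ⊕ X}

theorem exists_sh (hU : Univ 𝔹 M) (hL : Lnk P 𝔹 c) {m : ℕ} (π : Fin 6 → Fin m)
    (Q : Fin m → S → Prop) (t : Fin m → S) :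
    ∃ z, Sh P 𝔹 c (ky π Q t) (fun l => t (π l)) z := by
  choose x hx using hL.col.surS
  have hx' : ∀ s, vt P c (x s) = s := fun s => by simp only [vt, hx, Sum.elim_inl, id_eq]
  obtain ⟨e, -, he⟩ := sys6 hU hL π Q (fun j (_ : Unit) => x (t j))
  have h1 := he ()
  simp only [hx'] at h1
  exact ⟨_, h1⟩

theorem exists_op (hB : Base 𝔸 𝔹 M) (hL : Lnk P 𝔹 c) (hh : Core2 P 𝔸 𝔹 c h) {m : ℕ}
    (π : Fin 6 → Fin m) (Q : Fin m → S → Prop) : ∃ τ : (Fin m → S) → S,
      (∀ (t : Fin m → S) (k : Fin 6 → ℕ) (z : Fin 6 → V),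
        (∀ l l', k l < k l' ↔ ky π Q t l < ky π Q t l') → Sh P 𝔹 c k (fun l => t (π l)) z →
        h z z = Sum.inl (τ t)) ∧ Sbn P 𝔸 c τ ∧ ∀ s, τ (fun _ => s) = s := by
  have hc := hL.col
  have hval : ∀ z : Fin 6 → V, ∃ s, h z z = Sum.inl s := by
    intro z
    obtain ⟨ψ, -, h1⟩ := hh.can.comb Unit (fun l _ => z l)
    obtain ⟨s, h2⟩ := (hc.eq_iff (ψ ()) (ψ ())).2 rfl
    exact ⟨s, (h1 () ()).symm.trans h2⟩
  choose z hz using exists_sh hB.univ hL π Q
  choose τ hτ using fun t => hval (z t)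
  have key : ∀ (t : Fin m → S) (k : Fin 6 → ℕ) (z : Fin 6 → V),
        (∀ l l', k l < k l' ↔ ky π Q t l < ky π Q t l') → Sh P 𝔹 c k (fun l => t (π l)) z →
        h z z = Sum.inl (τ t) := by
    intro t k z' hk hz'
    rw [← hτ t]
    exact hh.can.tinv _ _ _ _ (sh_same hL (fun l => (hB.ar l).1) hk hz' (hz t))
  refine ⟨τ, key, ?_, ?_⟩
  · intro W _ G
    obtain ⟨e, he1, he2⟩ := sys6 hB.univ hL π Q G
    obtain ⟨ψ, h1, h2⟩ := hh.can.comb W e
    refine ⟨ψ, fun l y hy => h1 l y fun i => ?_, fun w => ?_⟩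
    · refine hB.tyi l _ _ (hy (π i)) ?_
      exact congrArg (fun t : Ty ρ W => pullT t y) (he1 i)
    · have h3 := h2 w w
      rw [key (fun i => vt P c (G i w)) _ (fun i => e i w) (fun _ _ => Iff.rfl) (he2 w)] at h3
      change Sum.elim id P.ls (c (ψ w) (ψ w)) = _
      rw [h3]
      rfl
  · intro s
    have h1 := hz (fun _ => s)
    have h2 := hh.idem s (z fun _ => s) ⟨fun l => ?_, fun l l' hl => ?_⟩ (fun l w hw =>
      ⟨w ⟨0, (hB.ar l).1⟩, w ⟨0, (hB.ar l).1⟩, fun i => Or.inl (h1.rel l w hw _ _)⟩)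
    · rw [hτ] at h2
      exact Sum.inl.inj h2
    · rw [vt_eq hc, h1.typ]
    · have h3 := (hL.free (z (fun _ => s) l) (z (fun _ => s) l') hl).2 (by
        intro l₁ f hf
        have h4 := h1.rel l₁ (fun i => if f i then l' else l) (by
          have e1 : (fun i => z (fun _ => s) (if f i then l' else l)) =
              fun i => if f i then z (fun _ => s) l' else z (fun _ => s) l := by
            funext i
            split_ifs <;> rfl
          rw [e1]
          exact hf)
        by_cases hall : ∀ i, f i = true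
        · exact Or.inl hall
        · right
          intro i
          push Not at hall
          obtain ⟨j, hj⟩ := hall
          by_contra hi
          have h5 := h4 i j
          simp only [Bool.not_eq_false] at hi
          simp only [hi, if_true] at h5
          rw [if_neg hj] at h5
          exact hl h5.symm)
      rw [h3, h1.typ, h1.typ]

theorem no_fac (hB : Base 𝔸 𝔹 M) (hL : Lnk P 𝔹 c) (hh : Core2 P 𝔸 𝔹 c h) {U : Fin 2 → Set S}
    (hU : Fac P 𝔸 c U) : False := by
  have hc := hL.col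
  obtain ⟨τi, hi1, hi2, hi3⟩ := exists_op hB hL hh (id : Fin 6 → Fin 6) (fun _ _ => False)
  obtain ⟨i, hi⟩ := hU.acts 6 τi hi2 hi3
  choose τ h1 h2 h3 using fun (r : Fin 3) (Q : Fin 2 → S → Prop) =>
    exists_op hB hL hh (pat r (0 : Fin 2) 1) Q
  choose j hj using fun r Q => hU.acts 2 (τ r Q) (h2 r Q) (h3 r Q)
  choose x hx using hU.ne
  -- locality
  have hloc : ∀ r (Q Q' : Fin 2 → S → Prop) (t : Fin 2 → S), (∀ a, Q a (t a) ↔ Q' a (t a)) →
      τ r Q t = τ r Q' t := by
    intro r Q Q' t hQ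
    obtain ⟨z, hz⟩ := exists_sh hB.univ hL (pat r (0 : Fin 2) 1) Q t
    have hk : ky (pat r (0 : Fin 2) 1) Q t = ky (pat r (0 : Fin 2) 1) Q' t := by
      funext l
      unfold ky
      classical
      by_cases h5 : Q (pat r (0 : Fin 2) 1 l) (t (pat r (0 : Fin 2) 1 l))
      · rw [if_pos h5, if_pos ((hQ _).1 h5)]
      · rw [if_neg h5, if_neg (fun h6 => h5 ((hQ _).2 h6))]
    have e1 := h1 r Q t _ z (fun _ _ => Iff.rfl) hz
    have e2 := h1 r Q' t _ z (fun _ _ => by rw [hk]) hz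
    exact Sum.inl.inj (e1.symm.trans e2)
  -- nothing glued
  have hnone : ∀ r, j r (fun _ _ => False) = pat r (0 : Fin 2) 1 i := by
    intro r
    obtain ⟨z, hz⟩ := exists_sh hB.univ hL (pat r (0 : Fin 2) 1) (fun _ _ => False) x
    have e1 := h1 r (fun _ _ => False) x _ z (fun _ _ => Iff.rfl) hz
    have e2 := hi1 (fun l => x (pat r (0 : Fin 2) 1 l)) _ z (fun l l' => by
      simp only [ky, if_false, id_eq]
      omega) hz
    have e3 : τ r (fun _ _ => False) x = τi (fun l => x (pat r (0 : Fin 2) 1 l)) :=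
      Sum.inl.inj (e1.symm.trans e2)
    have e4 := hj r (fun _ _ => False) x id hx
    have e5 := hi (fun l => x (pat r (0 : Fin 2) 1 l)) (pat r (0 : Fin 2) 1) fun l => hx _
    rw [e3] at e4
    exact hU.disj _ _ _ e4 e5
  -- everything glued
  have hall : ∀ r, j r (fun _ _ => True) = j 0 (fun _ _ => True) := by
    have hlr : ∀ t : Fin 2 → S, ∃ y : Fin 2 → V, ∀ r,
        Sh P 𝔹 c (ky (pat r (0 : Fin 2) 1) (fun _ _ => True) t)
          (fun l => t (pat r (0 : Fin 2) 1 l)) (fun l => y (pat r (0 : Fin 2) 1 l)) := by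
      intro t
      obtain ⟨z, hz⟩ := exists_sh hB.univ hL (pat 1 (0 : Fin 2) 1) (fun _ _ => True) t
      have hsec : ∀ a : Fin 2, pat 1 (0 : Fin 2) 1 (![0, 1] a : Fin 6) = a := by
        unfold pat
        decide
      refine ⟨fun a => z (![0, 1] a), fun r => ⟨fun l l' => ?_, fun l => ?_, fun l w hw i j => ?_⟩⟩
      · have h4 := hz.ord (![0, 1] (pat r (0 : Fin 2) 1 l)) (![0, 1] (pat r (0 : Fin 2) 1 l'))
        simp only [ky, if_true, hsec] at h4
        simp only [ky, if_true]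
        exact h4
      · have h4 := hz.typ (![0, 1] (pat r (0 : Fin 2) 1 l))
        simp only [hsec] at h4
        exact h4
      · exact hz.rel l (fun i => ![0, 1] (pat r (0 : Fin 2) 1 (w i))) hw i j
    intro r
    obtain ⟨y, hy⟩ := hlr x
    have e1 := h1 r (fun _ _ => True) x _ _ (fun _ _ => Iff.rfl) (hy r)
    have e2 := h1 0 (fun _ _ => True) x _ _ (fun _ _ => Iff.rfl) (hy 0)
    have hp : ∀ r, (fun l => y (pat r (0 : Fin 2) 1 l)) = pat r (y 0) (y 1) := by
      intro r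
      funext l
      exact pat_map y r 0 1 l
    rw [hp] at e1 e2
    rw [hh.exact r (y 0) (y 1) (y 0) (y 1), e2] at e1
    have e3 := Sum.inl.inj e1
    have e4 := hj r (fun _ _ => True) x id hx
    have e5 := hj 0 (fun _ _ => True) x id hx
    rw [← e3] at e4
    exact hU.disj _ _ _ e4 e5
  -- switching
  have hsw : ∀ r (κ : Fin 2) (Q Q' : Fin 2 → S → Prop), (∀ a, a ≠ κ → Q a = Q' a) →
      (∀ s, ¬ Q κ s) → (∀ s, Q' κ s) → j r Q = j r Q' := by
    intro r κ Q Q' hQ h4 h5
    let H : Fin 2 → S → Prop := fun a s => if a = κ then s ∈ U 0 else Q a s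
    have key : ∀ b : Fin 2 → Fin 2, Injective b → j r H = if b κ = 0 then j r Q' else j r Q := by
      intro b hb
      have e1 := hj r H (fun a => x (b a)) b fun a => hx _
      split_ifs with h0
      · have e2 : τ r H (fun a => x (b a)) = τ r Q' (fun a => x (b a)) := by
          refine hloc r H Q' _ fun a => ?_
          by_cases ha : a = κ
          · simp only [H, ha, if_true, h0]
            exact ⟨fun _ => h5 _, fun _ => hx 0⟩
          · simp only [H, if_neg ha, hQ a ha]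
        have e3 := hj r Q' (fun a => x (b a)) b fun a => hx _
        rw [e2] at e1
        exact hb (hU.disj _ _ _ e1 e3)
      · have e2 : τ r H (fun a => x (b a)) = τ r Q (fun a => x (b a)) := by
          refine hloc r H Q _ fun a => ?_
          by_cases ha : a = κ
          · simp only [H, ha, if_true]
            refine ⟨fun h6 => absurd (hU.disj _ _ _ (hx (b κ)) h6) h0, fun h6 => absurd h6 (h4 _)⟩
          · simp only [H, if_neg ha]
        have e3 := hj r Q (fun a => x (b a)) b fun a => hx _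
        rw [e2] at e1
        exact hb (hU.disj _ _ _ e1 e3)
    have hA := key _ (inj01 κ)
    have hB := key _ (inj10 κ)
    simp only [if_true] at hA hB
    rw [if_neg (by decide)] at hB
    exact hB.symm.trans hA
  obtain ⟨r, hr⟩ := pat_ne i (j 0 (fun _ _ => True))
  apply hr
  rw [← hnone r, ← hall r]
  have e1 := hsw r 0 (fun _ _ => False) (fun a _ => a = 0)
    (fun a ha => by funext s; simp only [ha]) (fun _ h => h) (fun _ => rfl)
  have e2 := hsw r 1 (fun a _ => a = 0) (fun _ _ => True)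
    (fun a ha => by
      funext s
      have : a = 0 := by omega
      simp only [this])
    (fun _ h => absurd h (by decide)) (fun _ => trivial)
  exact e1.trans e2

end ops

/-- cyclic actions on the types -/
theorem srt (hCYF : T_CYF) (hCOR : T_COR) (hOMG : T_OMG) {σ ρ : Sig} {V S X : Type}
    [LinearOrder V] {P : Pal S X} {𝔸 : Str σ V} {𝔹 : Str ρ V} {M : ℕ} {c : V → V → S ⊕ X}
    (hB : Base 𝔸 𝔹 M) (hL : Lnk P 𝔹 c) {h : (Fin 6 → V) → (Fin 6 → V) → S ⊕ X}
    (hh : Core2 P 𝔸 𝔹 c h) :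
    ∃ N : ℕ, ∀ p : ℕ, p.Prime → N < p → ∃ τ : (ZMod p → S) → S, Sbn P 𝔸 c τ ∧
      ∀ t, τ (fun i => t (i + 1)) = τ t := by
  have := hL.finS
  refine ⟨Nat.card S, fun p hp hN => ?_⟩
  have : NeZero p := ⟨hp.ne_zero⟩
  have : Finite (ZMod p) := Finite.of_fintype _
  have hZ : ¬ ∃ Z, Selects (RS P 𝔸 c p) Z := fun hZ => by
    obtain ⟨U, hU⟩ := exists_fac hCOR hOMG hL.finS hL.col hh.perm hZ
    exact no_fac hB hL hh hU
  obtain ⟨F, hF1, hF2⟩ := hCYF _ _ _ (RS P 𝔸 c p) hZ p hp hN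
  obtain ⟨v⟩ := hB.ne
  let e0 : ZMod p → S := fun _ => vt P c v
  refine ⟨F e0, ?_, hF2 e0⟩
  have h1 := hF1 (Sum.inl ()) (fun i t => t i) fun i => sbn_proj i
  have h2 : (fun t : ZMod p → S => F t (fun i => t i)) = F e0 := by
    funext t
    rw [fam_eq hF1 t e0]
  change Sbn P 𝔸 c (fun t : ZMod p → S => F t (fun i => t i)) at h1
  rw [h2] at h1
  exact h1

end Pool.Agent.H50.AR
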