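import Pool.Agent.H57.AR.Asm
import Pool.Agent.H50.AR.RED
import Pool.Agent.H50.AR.SRT

/-!
# All arities: the targets SRTR, RE1R, REDR, TYIR
-/

set_option autoImplicit false

namespace Pool.Agent.H50.AR

open Pool.Agent.H68.BP Pool.Agent.H58.SF Pool.Agent.H53.GC Pool.Agent.H53.NR Pool.Agent.H53.GR
open Pool.Agent.H57.EQ (T_CYF)
open Pool.Agent.H57.AR

theorem pf_SRTR (hCYF : T_CYF) (hCOR : T_COR) (hOMG : T_OMG) : T_SRTR := by
  intro σ ρ V S X _ P 𝔸 𝔹 M c hs h hh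
  exact srt hCYF hCOR hOMG hs.base hs.lnk hh

theorem pf_RE1R : T_RE1R := by
  intro σ ρ V S X _ _ P 𝔸 𝔹 M c hs n 𝕏
  exact re1 hs hs.base.ar n 𝕏

theorem pf_REDR : T_REDR := by
  intro σ ρ V S X _ _ P 𝔸 𝔹 M c hs
  exact red hs hs.base.ar

theorem pf_TYIR : T_TYIR := by
  intro τ σ B _ 𝔹 𝔸 hH hS l x y hx hxy
  obtain ⟨g, hg, hgx⟩ := Pool.Agent.H18.SF.exists_aut_of_ty hH y x hxy
  have h1 := (hS g hg l x).1 hx
  have h2 : (fun i => g (x i)) = y := funext hgx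
  rw [h2] at h1
  exact h1

end Pool.Agent.H50.AR
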