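import Pool.Agent.H44.CM.AllA
import Pool.Agent.H50.AR.Final
import Pool.Agent.H50.PT.CPC

/-!
# Structures with completions: the theorem
-/

set_option autoImplicit false

namespace Pool.Agent.H50.AR

open Pool.Agent.H68.BP Pool.Agent.H53.NR
open Pool.Agent.H44.CM (Completable)

/-- The theorem for all first-order reducts of homogeneous structures with completions. -/
theorem v_CMF : Pool.Agent.H50.PT.T_CMF := by
  intro τ σ B _ _ 𝔹 𝔸 har hH hC hS
  exact Pool.Agent.H44.CM.asm_cm2 pf_REDR v_TPL Pool.Agent.H50.EQ.pf_OLG pf_TYIR τ σ B 𝔹 𝔸 har hH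
    hC hS

/-- The theorem for all first-order reducts, with parameters, of homogeneous structures with
completions. -/
theorem final_cm (τ σ : Sig) (B : Type) [Countable B] [Nonempty B] (𝔹 : Str τ B) (𝔸 : Str σ B)
    (hH : Homogeneous 𝔹) (hF : Completable 𝔹) (C : Set B) (hC : C.Finite)
    (hS : ∀ g : B ≃ B, IsAut 𝔹 g → (∀ x ∈ C, g x = x) → IsAut 𝔸 g) :
    PPConstructsK3 𝔸 ∨ ∃ (σ' : Sig) (Y : Type) (_ : Finite Y) (𝕋 : Str σ' Y),
      ¬ PPConstructsK3 𝕋 ∧ N793a5b8e.ManyOneReducible (CSP 𝔸) (CSP 𝕋) :=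
  Pool.Agent.H50.PT.params_cm v_CMF τ σ B 𝔹 𝔸 hH hF C hC hS

/-- Finitely bounded structures with free amalgamation have completions. -/
theorem completable_free {τ : Sig} {B : Type} {𝔹 : Str τ B} (hF : FinitelyBounded 𝔹)
    (hA : FreeAmalgamation 𝔹) : Completable 𝔹 :=
  Pool.Agent.H44.CM.completable_of_free Pool.Agent.H77.NR.pf_FB1 hF hA

end Pool.Agent.H50.AR
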