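import Pool.Agent.H16.AR.BHIR
import Pool.Agent.H18.AR.BKGR
import Pool.Agent.H95.AR.BKSR
import Pool.Agent.H78.AR.CANR
import Pool.Agent.H94.AR.CF2
import Pool.Agent.H56.AR.CFR
import Pool.Agent.H88.AR.CMBR
import Pool.Agent.H77.AR.CMPR
import Pool.Agent.H47.AR.CPSR
import Pool.Agent.H47.AR.CYBR
import Pool.Agent.H74.AR.CYPR
import Pool.Agent.H73.AR.DDXR
import Pool.Agent.H48.AR.GCN
import Pool.Agent.H13.AR.GENR
import Pool.Agent.H34.AR.INLR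
import Pool.Agent.H3.AR.JEXR
import Pool.Agent.H37.AR.JNER
import Pool.Agent.H3.AR.KERR
import Pool.Agent.H55.AR.LFTR
import Pool.Agent.H70.AR.LTRR
import Pool.Agent.H16.AR.LTRW
import Pool.Agent.H6.AR.MINR
import Pool.Agent.H37.AR.ORDR
import Pool.Agent.H24.AR.PRD
import Pool.Agent.H96.AR.SAM
import Pool.Agent.H37.AR.SEPR
import Pool.Agent.H48.AR.SEPW
import Pool.Agent.H77.AR.SHB
import Pool.Agent.H60.AR.SHC
import Pool.Agent.H35.AR.SHV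
import Pool.Agent.H94.AR.SYR
import Pool.Agent.H57.AR.TOF
import Pool.Agent.H56.AR.TWOR
import Pool.Agent.H1.AR.TAMR
import Pool.Agent.H26.AR.BHHR
import Pool.Agent.H66.AR.JNEW
import Pool.Agent.H39.AR.CONR
import Pool.Agent.H19.AR.LCBR
import Pool.Agent.H54.AR.CABR
import Pool.Agent.H50.AR.All

/-!
# All arities: the template of a core, assembly of the rows
-/

set_option autoImplicit false

namespace Pool.Agent.H50.AR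

open Pool.Agent.H68.BP Pool.Agent.H58.SF Pool.Agent.H53.NR Pool.Agent.H58.GR
open Pool.Agent.H53.GC (T_OLF T_COR T_OMG)
open Pool.Agent.H53.GR (T_UNI T_CAN T_MIX T_GOO T_NOSEL T_LIM)
open Pool.Agent.H57.EQ (T_CYC T_NKC T_CYF)
open Pool.Agent.H57.SO (Pal)
open Pool.Agent.H57.AR

theorem all_TPL (hNR3 : Pool.Agent.H53.GR.T_NR3) (hCAN : T_CAN) (hMIX : T_MIX) (hGOO : T_GOO)
    (hNOS : T_NOSEL) (hOLF : T_OLF) (hLIM : T_LIM) (hCYC : T_CYC) (hNKC : T_NKC) (hCYF : T_CYF)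
    (hCOR : T_COR) (hOMG : T_OMG)
    {σ ρ : Sig} {V S X : Type} [LinearOrder V] [Finite S] {P : Pal S X} {𝔸 : Str σ V}
    {𝔹 : Str ρ V} {M : ℕ} {c : V → V → S ⊕ X} (hs : StpR P 𝔸 𝔹 M c) {h : Ty ρ (Fin 6 → V)}
    {h2 : (Fin 6 → V) → (Fin 6 → V) → S ⊕ X} (hh : CoreR P 𝔸 𝔹 c h h2) :
    ¬ PPConstructsK3 (tpR P 𝔸 𝔹 M c) := by
  have hCFR := Pool.Agent.H56.AR.pf_CFR
  have hCF2 := Pool.Agent.H94.AR.pf_CF2 hCFR
  have hSYR := Pool.Agent.H94.AR.pf_SYR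
  have hGENR := Pool.Agent.H13.AR.pf_GENR hSYR
  have hORDR := Pool.Agent.H37.AR.pf_ORDR hSYR
  have hCANR := Pool.Agent.H78.AR.pf_CANR Pool.Agent.H48.AR.GCN.pf_GCN hNR3
  have hSHV := Pool.Agent.H35.AR.pf_SHV hCF2
  have hSHB := Pool.Agent.H77.AR.pf_SHB Pool.Agent.H96.AR.pf_SAM
  have hSHC := Pool.Agent.H60.AR.pf_SHC hSHB
  have hTAMR := Pool.Agent.H1.AR.pf_TAMR hSHV hSHB
  have hBHHR := Pool.Agent.H26.AR.pf_BHHR hGENR hTAMR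
  have hJNEW := Pool.Agent.H66.AR.pf_JNEW
  have hJEXR := Pool.Agent.H3.AR.pf_JEXR hSHV hSHB
  have hJNER := Pool.Agent.H37.AR.pf_JNER hSHV hSHC hJNEW
  have hSEPR := Pool.Agent.H37.AR.pf_SEPR hSHV hSHC Pool.Agent.H48.AR.SEPW.pf_SEPW
  have hLTRR := Pool.Agent.H70.AR.pf_LTRR hSHV hSHC (Pool.Agent.H16.AR.LTRW.pf_LTRW hJNEW)
  have hCMPR := Pool.Agent.H77.AR.pf_CMPR
  have hTWOR := Pool.Agent.H56.AR.pf_TWOR hSYR hCMPR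
  have hINLR := Pool.Agent.H34.AR.pf_INLR hJEXR hJNER hTWOR hSEPR Pool.Agent.H6.AR.pf_MINR hCMPR
    (Pool.Agent.H39.AR.pf_CONR hSYR) hLTRR
  have hDDXR := Pool.Agent.H73.AR.pf_DDXR
  have hLFTR := Pool.Agent.H55.AR.pf_LFTR
  exact asm_tplR
    (fun σ ρ V S X _ _ P 𝔸 𝔹 M c hs h h2 hh => asm_cycR
      (fun σ ρ V S X _ _ P 𝔸 𝔹 M c hs H hH =>
        asm_olsR hNR3 hCAN hMIX hGOO hNOS hOLF hLIM Pool.Agent.H47.AR.pf_CPSR hs hH)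
      (Pool.Agent.H95.AR.pf_BKSR hSYR) Pool.Agent.H18.AR.pf_BKGR hCYC hs hh)
    (pf_SRTR hCYF hCOR hOMG) (Pool.Agent.H3.AR.pf_KERR hCANR hBHHR) hINLR (Pool.Agent.H19.AR.pf_LCBR hCANR hBHHR)
    (Pool.Agent.H88.AR.pf_CMBR hCF2) Pool.Agent.H57.AR.pf_BHIR Pool.Agent.H47.AR.pf_CYBR
    (Pool.Agent.H54.AR.CABR.pf_CABR hGENR hCANR)
    (Pool.Agent.H57.AR.pf_TOFR Pool.Agent.H24.AR.pf_PRD hDDXR hLFTR hORDR)
    (Pool.Agent.H74.AR.pf_CYPR hDDXR hLFTR) hNKC hs hh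

end Pool.Agent.H50.AR
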