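import Pool.Agent.H57.AR.Defs

/-!
# All arities: correctness of the reduction
-/

set_option autoImplicit false

namespace Pool.Agent.H50.AR

open Pool.Agent.H68.BP Pool.Agent.H58.SF Pool.Agent.H53.GC Pool.Agent.H53.NR Pool.Agent.H53.GR
open Pool.Agent.H57.SO (Pal Col vt)
open Pool.Agent.H57.AR
open Function

/-- the classes of an equivalence relation on a finite set, with representatives -/
theorem exists_classes {W : Type} [Finite W] (R : W → W → Prop) (hR : Equivalence R) :
    ∃ (N : ℕ) (cl : W → Fin N) (rp : Fin N → W), (∀ i, cl (rp i) = i) ∧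
      ∀ i j, cl i = cl j ↔ R i j := by
  let St : Setoid W := ⟨R, hR⟩
  let e : Quotient St ≃ Fin (Nat.card (Quotient St)) := Finite.equivFin _
  refine ⟨_, fun u => e (Quotient.mk St u), fun i => (e.symm i).out, fun i => ?_, fun i j => ?_⟩
  · have h1 : Quotient.mk St (e.symm i).out = e.symm i := Quotient.out_eq _
    simp only [h1, e.apply_symm_apply]
  · constructor
    · intro h
      exact Quotient.exact (e.injective h)
    · intro h
      exact congrArg e (Quotient.sound h)

section cut

/-- the map onto the first `r` places -/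
def cut {r : ℕ} (hr : 1 ≤ r) (k : ℕ) : Fin k → Fin r := fun i => ⟨min (i : ℕ) (r - 1), by omega⟩

theorem cut_inc {r k : ℕ} (hr : 1 ≤ r) (hk : r ≤ k) (i : Fin r) :
    cut hr k (Fin.castLE hk i) = i := by
  apply Fin.ext
  have := i.2
  simp only [cut, Fin.val_castLE]
  omega

end cut

section re

variable {σ ρ : Sig} {V S X : Type} [LinearOrder V] [Finite S] {P : Pal S X} {𝔸 : Str σ V}
  {𝔹 : Str ρ V} {M : ℕ} {c : V → V → S ⊕ X}

/-- correctness of the reduction -/
theorem re1 (hs : StpR P 𝔸 𝔹 M c) (har : ∀ l, 1 ≤ ρ.ar l ∧ ρ.ar l < M) (n : ℕ)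
    (𝕏 : Str σ (Fin n)) :
    (∃ f, IsHom 𝕏 𝔸 f) ↔ ∃ q : (Σ j : Fin M, (Fin (j + 1) → Fin n)) → El S ρ M,
      ∀ (s : Option (Fin σ.m)) (y : Fin (arP σ M s) → Fin n), relP 𝕏 M s y →
        FamR P 𝔸 𝔹 M c (tf 𝔸 𝔹 M c) s (fun p => q ⟨p.1, fun i => y (p.2 i)⟩) := by
  classical
  have h3 := hs.base.three
  constructor
  · rintro ⟨f, hf⟩
    obtain ⟨N, kk', -, -, hkk'⟩ := exists_classes (fun i j => f i = f j)
      ⟨fun _ => rfl, fun h => h.symm, fun h1 h2 => h1.trans h2⟩
    let kk : Fin n → ℕ := fun i => kk' i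
    have hkk : ∀ i j, kk i = kk j ↔ f i = f j := fun i j => by
      rw [← hkk']
      exact ⟨fun h => Fin.ext h, fun h => congrArg Fin.val h⟩
    refine ⟨fun p => ⟨p.1, ⟨fun a => vt P c (f (p.2 a)), fun a b => kk (p.2 a) = kk (p.2 b),
      fun _ => pull 𝔹 (fun a => f (p.2 a)), fun φ => φ (ord fun a => kk (p.2 a))⟩⟩,
      fun s y hr => ?_⟩
    refine ⟨fun a => kk (y a), fun φ => φ (ord fun a => kk (y a)), fun a => vt P c (f (y a)),
      fun j α _ => pull 𝔹 (fun a => f (y (α a))), fun l x hx => hx _, ?_, fun j α => rfl,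
      fun rk hrk => ⟨fun a => f (y a), ?_, fun a b => (hkk _ _).symm, fun a => rfl,
        fun j α => rfl⟩⟩
    · intro φ φ' h
      exact h _ ⟨_, fun a b => Iff.rfl, rfl⟩
    · cases s with
      | none => trivial
      | some l => exact hf l y hr
  · rintro ⟨q, hq⟩
    obtain ⟨M', rfl⟩ : ∃ M', M = M' + 1 := ⟨M - 1, by omega⟩
    let i2 : Fin (M' + 1) := ⟨1, by omega⟩
    let R : Fin n → Fin n → Prop := fun i j => ∃ e : ElD S ρ (Dm ρ (M' + 1)) 2,
      q ⟨i2, ![i, j]⟩ = ⟨i2, e⟩ ∧ e.kr 0 1
    have hR : ∀ (s : Option (Fin σ.m)) (y : Fin (arP σ (M' + 1) s) → Fin n)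
        (k : Fin (arP σ (M' + 1) s) → ℕ) (E : Sgn (Dm ρ (M' + 1)) (arP σ (M' + 1) s))
        (t : Fin (arP σ (M' + 1) s) → S)
        (st : (j : Fin (M' + 1)) → (Fin (j + 1) → Fin (arP σ (M' + 1) s)) → Od (j + 1) →
          Str ρ (Fin (j + 1))),
        (∀ (j : Fin (M' + 1)) (α : Fin (j + 1) → Fin (arP σ (M' + 1) s)),
          q ⟨j, fun i => y (α i)⟩ = ⟨j, ⟨fun a => t (α a), fun a b => k (α a) = k (α b),
            st j α, rsS α E⟩⟩) → ∀ a b, R (y a) (y b) ↔ k a = k b := by
      intro s y k E t st h a b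
      have h1 := h i2 ![a, b]
      have h2 : (fun i => y ((![a, b] : Fin 2 → _) i)) = ![y a, y b] := by
        funext i
        match i with
        | 0 => rfl
        | 1 => rfl
      have h3 : q ⟨i2, ![y a, y b]⟩ = ⟨i2, ⟨fun a' => t ((![a, b] : Fin 2 → _) a'),
          fun a' b' => k ((![a, b] : Fin 2 → _) a') = k ((![a, b] : Fin 2 → _) b'),
            st i2 ![a, b], rsS ![a, b] E⟩⟩ := by
        rw [← h2]
        exact h1
      constructor
      · rintro ⟨e, he, hk⟩
        rw [h3] at he
        have h4 := eq_of_heq (Sigma.mk.inj_iff.1 he).2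
        rw [← h4] at hk
        exact hk
      · intro hk
        exact ⟨_, h3, hk⟩
    have tri : ∀ p : Fin (M' + 1) → Fin n, ∃ k : Fin (M' + 1) → ℕ,
        ∀ a b, R (p a) (p b) ↔ k a = k b := by
      intro p
      obtain ⟨k, E, t, st, -, -, h, -⟩ := hq none p trivial
      exact ⟨k, hR none p k E t st h⟩
    have hrefl : ∀ i, R i i := by
      intro i
      obtain ⟨k, hk⟩ := tri (fun _ => i)
      exact (hk 0 0).2 rfl
    have hsy : ∀ {i j}, R i j → R j i := by
      intro i j h1
      obtain ⟨k, hk⟩ := tri (fun a => if a.1 = 0 then i else j)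
      have e1 := (hk ⟨0, by omega⟩ ⟨1, by omega⟩).1 (by simpa using h1)
      have e2 := (hk ⟨1, by omega⟩ ⟨0, by omega⟩).2 e1.symm
      simpa using e2
    have htr : ∀ {i j l}, R i j → R j l → R i l := by
      intro i j l h1 h2
      obtain ⟨k, hk⟩ := tri (fun a => if a.1 = 0 then i else if a.1 = 1 then j else l)
      have e1 := (hk ⟨0, by omega⟩ ⟨1, by omega⟩).1 (by simpa using h1)
      have e2 := (hk ⟨1, by omega⟩ ⟨2, by omega⟩).1 (by simpa using h2)
      have e3 := (hk ⟨0, by omega⟩ ⟨2, by omega⟩).2 (e1.trans e2)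
      simpa using e3
    obtain ⟨N, cl, rp, hrp, hcl⟩ := exists_classes R ⟨hrefl, hsy, htr⟩
    let rk : Fin n → ℕ := fun i => cl i
    have hrk : ∀ i j, rk i = rk j ↔ R i j := fun i j => by
      rw [← hcl]
      exact ⟨fun h => Fin.ext h, fun h => congrArg Fin.val h⟩
    have hle : ∀ l, ρ.ar l ≤ M' + 1 := fun l => (har l).2.le
    -- the relations
    let Q : (l : Fin ρ.m) → (Fin (ρ.ar l) → Fin n) → Prop := fun l z =>
      ∃ e : ElD S ρ (Dm ρ (M' + 1)) (M' + 1),
        q ⟨Fin.last M', fun i => z (cut (har l).1 _ i)⟩ = ⟨Fin.last M', e⟩ ∧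
        e.st (ord fun a => rk (z (cut (har l).1 _ a))) l (Fin.castLE (hle l))
    have key : ∀ (s : Option (Fin σ.m)) (y : Fin (arP σ (M' + 1) s) → Fin n),
        relP 𝕏 (M' + 1) s y → ∃ x : Fin (arP σ (M' + 1) s) → V, relP 𝔸 (M' + 1) s x ∧
          (∀ a b, x a = x b ↔ R (y a) (y b)) ∧
          ∀ (l : Fin ρ.m) (w : Fin (ρ.ar l) → Fin (arP σ (M' + 1) s)),
            Q l (fun i => y (w i)) ↔ 𝔹 l (fun i => x (w i)) := by
      intro s y hr
      obtain ⟨k, E, t, st, -, -, h1, h2⟩ := hq s y hr
      have hk := hR s y k E t st h1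
      obtain ⟨x, hx1, hx2, -, hx3⟩ := h2 (fun a => rk (y a)) (fun a b => by rw [hrk, hk])
      refine ⟨x, hx1, fun a b => by rw [hx2, hk], fun l w => ?_⟩
      let α : Fin (M' + 1) → Fin (arP σ (M' + 1) s) := fun i => w (cut (har l).1 _ i)
      have e1 := h1 (Fin.last M') α
      have e2 := hx3 (Fin.last M') α
      have e3 := congrFun (congrFun e2 l) (Fin.castLE (hle l))
      have e4 : pull 𝔹 (fun a => x (α a)) l (Fin.castLE (hle l)) = 𝔹 l (fun i => x (w i)) := by
        unfold pull
        exact congrArg (𝔹 l) (funext fun i => congrArg (fun j => x (w j)) (cut_inc _ (hle l) i))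
      have e6 := e4.symm.trans e3
      constructor
      · rintro ⟨e, he, hst⟩
        rw [e6]
        have e5 := eq_of_heq (Sigma.mk.inj_iff.1 (e1.symm.trans he)).2
        rw [← e5] at hst
        exact hst
      · intro hB
        rw [e6] at hB
        exact ⟨_, e1, hB⟩
    have keyN : ∀ p : Fin (M' + 1) → Fin n, ∃ x : Fin (M' + 1) → V,
        (∀ a b, x a = x b ↔ R (p a) (p b)) ∧
          ∀ (l : Fin ρ.m) (w : Fin (ρ.ar l) → Fin (M' + 1)),
            Q l (fun i => p (w i)) ↔ 𝔹 l (fun i => x (w i)) := by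
      intro p
      obtain ⟨x, -, h2, h3⟩ := key none p trivial
      exact ⟨x, h2, h3⟩
    -- exchange of one place
    have ex1 : ∀ (l : Fin ρ.m) (z : Fin (ρ.ar l) → Fin n) (a : Fin (ρ.ar l)) (i : Fin n),
        R (z a) i → (Q l z ↔ Q l (update z a i)) := by
      intro l z a i hi
      let p : Fin (M' + 1) → Fin n := fun b => if b = Fin.last M' then i else
        z (cut (har l).1 _ b)
      obtain ⟨x, hx2, hx3⟩ := keyN p
      have hinc : ∀ b : Fin (ρ.ar l), Fin.castLE (hle l) b ≠ Fin.last M' := by
        intro b h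
        have h1 := congrArg Fin.val h
        simp only [Fin.val_castLE, Fin.val_last] at h1
        have := b.2
        have := (har l).2
        omega
      have hp : ∀ b : Fin (ρ.ar l), p (Fin.castLE (hle l) b) = z b := by
        intro b
        simp only [p, if_neg (hinc b), cut_inc]
      have hpl : p (Fin.last M') = i := by simp only [p, if_true]
      have e1 := hx3 l (Fin.castLE (hle l))
      have e2 := hx3 l (update (Fin.castLE (hle l)) a (Fin.last M'))
      have e3 : (fun b => p (Fin.castLE (hle l) b)) = z := funext hp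
      have e4 : (fun b => p (update (Fin.castLE (hle l)) a (Fin.last M') b)) =
          update z a i := by
        funext b
        by_cases hb : b = a
        · subst hb
          rw [update_self, update_self, hpl]
        · rw [update_of_ne hb, update_of_ne hb, hp]
      have e5 : (fun b => x (update (Fin.castLE (hle l)) a (Fin.last M') b)) =
          fun b => x (Fin.castLE (hle l) b) := by
        funext b
        by_cases hb : b = a
        · subst hb
          rw [update_self]
          refine ((hx2 _ _).2 ?_).symm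
          rw [hp, hpl]
          exact hi
        · rw [update_of_ne hb]
      have e1' : Q l z ↔ 𝔹 l (fun b => x (Fin.castLE (hle l) b)) := by
        rw [← e1]
        exact iff_of_eq (congrArg (Q l) e3.symm)
      have e2' : Q l (update z a i) ↔
          𝔹 l (fun b => x (update (Fin.castLE (hle l)) a (Fin.last M') b)) := by
        rw [← e2]
        exact iff_of_eq (congrArg (Q l) e4.symm)
      rw [e1', e2', e5]
    have exA : ∀ (l : Fin ρ.m) (z z' : Fin (ρ.ar l) → Fin n), (∀ a, R (z a) (z' a)) →
        (Q l z ↔ Q l z') := by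
      intro l z z' hz
      have h1 : ∀ T : Finset (Fin (ρ.ar l)), Q l z ↔ Q l (fun a => if a ∈ T then z' a else z a) := by
        intro T
        induction T using Finset.induction_on with
        | empty => simp
        | insert a T ha ih =>
          rw [ih]
          have h2 := ex1 l (fun b => if b ∈ T then z' b else z b) a (z' a) (by
            simp only [if_neg ha]
            exact hz a)
          rw [h2]
          have h4 : update (fun b => if b ∈ T then z' b else z b) a (z' a) =
              fun b => if b ∈ insert a T then z' b else z b := by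
            funext b
            by_cases hb : b = a
            · subst hb
              rw [update_self]
              simp
            · rw [update_of_ne hb]
              simp [hb]
          rw [h4]
      have h2 := h1 Finset.univ
      simpa using h2
    -- realization
    obtain ⟨f, -, hfi, hfe⟩ := hs.base.univ N (fun l w => Q l (fun i => rp (w i))) (by
      intro m s hm hsi _
      rcases Nat.eq_zero_or_pos m with h0 | hpos
      · subst h0
        refine ⟨fun i => i.elim0, fun i => i.elim0, fun l z => ?_⟩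
        exact (z ⟨0, (har l).1⟩).elim0
      let p : Fin (M' + 1) → Fin n := fun b => rp (s (cut hpos _ b))
      have hp : ∀ b : Fin m, p (Fin.castLE hm b) = rp (s b) := by
        intro b
        simp only [p, cut_inc]
      obtain ⟨x, hx2, hx3⟩ := keyN p
      refine ⟨fun a => x (Fin.castLE hm a), fun a b hab => ?_, fun l z => ?_⟩
      · have h1 := (hx2 _ _).1 hab
        rw [hp, hp, ← hcl, hrp, hrp] at h1
        exact hsi h1
      · have h1 := hx3 l (fun i => Fin.castLE hm (z i))
        rw [← h1]
        exact iff_of_eq (congrArg (Q l) (funext fun i => (hp (z i)).symm)))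
    refine ⟨fun i => f (cl i), fun l y hy => ?_⟩
    obtain ⟨x, hx1, hx2, hx3⟩ := key (some l) y hy
    refine hs.base.tyi l x _ hx1 ?_
    refine Prod.ext ?_ ?_
    · funext a b
      refine propext ?_
      change f (cl (y a)) = f (cl (y b)) ↔ x a = x b
      rw [hfi.eq_iff, hcl, hx2]
    · funext l' w
      refine propext ?_
      change 𝔹 l' (fun i => f (cl (y (w i)))) ↔ 𝔹 l' (fun i => x (w i))
      rw [← hx3 l' w]
      refine Iff.trans (hfe l' (fun i => cl (y (w i)))).symm ?_
      exact exA l' (fun i => rp (cl (y (w i)))) (fun i => y (w i)) fun a => by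
        rw [← hcl, hrp]

end re

end Pool.Agent.H50.AR
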